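import Mathlib
import Pool.Agent.H.MP_f65ae4_nt.A

namespace Pool.Agent.Results.MP_550cbf_nt.Yes

open Nat Finset Pool.Agent.H.MP_f65ae4_nt

lemma dvdE (c j : ℕ) (h : 1 ≤ c + j) :
    2 * (O (c + 1) * (c + j)!) ∣ 2 ^ (c + j) * O (2 * c + j + 1) := by
  have o1 := (O_pos (c + 1)).ne'
  have o3 := (O_pos (2 * c + j + 1)).ne'
  have f1 := factorial_ne_zero (c + j)
  refine (Nat.factorization_prime_le_iff_dvd (by positivity) (by positivity)).1 fun p hp => ?_
  rw [Nat.factorization_mul (by norm_num) (by positivity), Nat.factorization_mul o1 f1,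
    Nat.factorization_mul (by positivity) o3, Nat.factorization_pow]
  simp only [Finsupp.add_apply, Finsupp.smul_apply, Nat.Prime.factorization Nat.prime_two,
    Finsupp.single_apply]
  by_cases h2 : 2 = p
  · subst h2
    simp only [vO2, if_true, smul_eq_mul, mul_one]
    have a1 := v2fact_lt (c + j) (by omega)
    omega
  · simp only [if_neg h2, smul_zero, zero_add]
    have h2' : p ≠ 2 := Ne.symm h2
    set b := 6 * c + 4 * j + 5
    rw [vO hp h2' _ b (by omega), vO hp h2' _ b (by omega), vfact hp _ b (by omega),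
      ← sum_add_distrib]
    refine sum_le_sum fun i _ => ?_
    rw [show 2 * c + j + 1 + p ^ i / 2 = (c + 1 + p ^ i / 2) + (c + j) by ring]
    exact Nat.div_add_div_le_add_div

def Cb (n : ℕ) : ℚ := 2 ^ n * O n / n !

lemma Cb_eq (n : ℕ) : ((2 * n).choose n : ℚ) = Cb n := by
  have h := Nat.add_choose_mul_factorial_mul_factorial n n
  rw [← two_mul, O_fact] at h
  have h' : ((2 * n).choose n : ℚ) * n ! * n ! = 2 ^ n * n ! * O n := by exact_mod_cast h
  unfold Cb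
  have : (n ! : ℚ) ≠ 0 := by positivity
  field_simp
  field_simp at h'
  linarith

lemma Opos (m : ℕ) : (0 : ℚ) < O m := by exact_mod_cast O_pos m
lemma Os (m : ℕ) : (O (m + 1) : ℚ) = O m * (2 * m + 1) := by rw [O]; push_cast; ring
lemma Fs (m : ℕ) : ((m + 1)! : ℚ) = (m + 1) * m ! := by rw [factorial_succ]; push_cast; ring
lemma Ch (a b : ℕ) : ((a + b).choose b : ℚ) = (a + b)! / (a ! * b !) := by
  have h : ((a + b).choose b : ℚ) * a ! * b ! = (a + b)! := by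
    exact_mod_cast Nat.add_choose_mul_factorial_mul_factorial a b
  rw [← h]; field_simp

lemma M_eq (n : ℕ) : ((2 * n).choose n : ℚ) ^ 2 * ((3 * n).choose n : ℚ) =
    2 ^ n * O n * (3 * n)! / (n ! : ℚ) ^ 4 := by
  have h := Nat.add_choose_mul_factorial_mul_factorial (2 * n) n
  rw [show 2 * n + n = 3 * n by ring, O_fact] at h
  have h' : ((3 * n).choose n : ℚ) * (2 ^ n * n ! * O n) * n ! = (3 * n)! := by exact_mod_cast h
  rw [Cb_eq, ← h']
  unfold Cb
  field_simp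

def V (c j : ℕ) : ℚ := (-1) ^ c * 2 ^ (c + j) * O (2 * c + j + 1) * (3 * c + 3 * j + 3)! /
  (2 * O (c + 1) * j ! * (3 * c + 2 * j + 2)! * ((c + j + 1)! : ℚ))

def T (c j : ℕ) : ℚ := (c + j + 1) * Cb (c + j + 1) * V c j

def Phi (k j : ℕ) : ℚ := (-1) ^ k * 2 ^ (2 * k + 2 * j) *
  (22 * (k + j) ^ 2 + 10 * (k + j) * k + 4 * k ^ 2 + 17 * (k + j) + 4 * k + 3) * O (2 * k + j) *
  O (k + j) * (3 * k + 3 * j)! / (O k * j ! * (3 * k + 2 * j + 1)! * ((k + j)! : ℚ) ^ 2)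

lemma wz1 (c j : ℕ) : T c (j + 1) - 64 * T c j = Phi c (j + 1) - Phi (c + 1) j := by
  unfold T V Phi Cb
  have := Opos (2 * c + j + 1)
  have := Opos c
  have := Opos (c + j + 1)
  rw [show 2 * c + (j + 1) + 1 = 2 * c + j + 1 + 1 by ring,
    show 3 * c + 3 * (j + 1) + 3 = 3 * c + 3 * j + 3 + 1 + 1 + 1 by ring,
    show 3 * c + 2 * (j + 1) + 2 = 3 * c + 2 * j + 2 + 1 + 1 by ring,
    show c + (j + 1) + 1 = c + j + 1 + 1 by ring,
    show 2 * c + (j + 1) = 2 * c + j + 1 by ring,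
    show 3 * c + 3 * (j + 1) = 3 * c + 3 * j + 3 by ring,
    show 3 * c + 2 * (j + 1) + 1 = 3 * c + 2 * j + 2 + 1 by ring, show c + (j + 1) = c + j + 1 by ring,
    show 2 * (c + 1) + j = 2 * c + j + 1 + 1 by ring,
    show 3 * (c + 1) + 3 * j = 3 * c + 3 * j + 3 by ring,
    show 3 * (c + 1) + 2 * j + 1 = 3 * c + 2 * j + 2 + 1 + 1 by ring, show c + 1 + j = c + j + 1 by ring]
  rw [Os (2 * c + j + 1), Os (c + j + 1), Os c, Fs (3 * c + 3 * j + 3 + 1 + 1),
    Fs (3 * c + 3 * j + 3 + 1), Fs (3 * c + 3 * j + 3), Fs (3 * c + 2 * j + 2 + 1),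
    Fs (3 * c + 2 * j + 2), Fs (c + j + 1), Fs j]
  push_cast
  field_simp
  ring

lemma wz2 (c : ℕ) : T c 0 = Phi c 0 := by
  unfold T V Phi Cb
  have := Opos (2 * c)
  have := Opos c
  simp only [mul_zero, add_zero, show 3 * c + 3 = 3 * c + 1 + 1 + 1 from rfl,
    show 3 * c + 2 = 3 * c + 1 + 1 from rfl, Os, Fs]
  push_cast
  field_simp
  ring

def S (n : ℕ) : ℚ := ∑ k ∈ range n,
  (11 * k + 3) * (((2 * k).choose k : ℚ) ^ 2 * ((3 * k).choose k : ℚ)) * 64 ^ (n - 1 - k)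

lemma S_succ (n : ℕ) : S (n + 1) = 64 * S n + Phi 0 n := by
  unfold S
  rw [sum_range_succ, mul_sum]
  congr 1
  · refine sum_congr rfl fun k hk => ?_
    have := mem_range.1 hk
    rw [show n + 1 - 1 - k = (n - 1 - k) + 1 by omega, pow_succ]; ring
  · rw [M_eq]
    unfold Phi
    have := Opos n
    simp only [mul_zero, zero_add, Nat.add_sub_cancel, Nat.sub_self, Fs, O_fact, O]
    push_cast
    field_simp
    ring

lemma S_eq (n : ℕ) : S n = ∑ c ∈ range n, T c (n - 1 - c) := by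
  induction n with
  | zero => simp [S]
  | succ n ih =>
    rw [S_succ, ih, sum_range_succ]
    have h : ∑ c ∈ range n, T c (n + 1 - 1 - c) - 64 * ∑ c ∈ range n, T c (n - 1 - c) =
        ∑ c ∈ range n, (Phi c (n - c) - Phi (c + 1) (n - (c + 1))) := by
      rw [mul_sum, ← sum_sub_distrib]
      refine sum_congr rfl fun c hc => ?_
      have := mem_range.1 hc
      rw [show n + 1 - 1 - c = (n - 1 - c) + 1 by omega, wz1,
        show n - c = (n - 1 - c) + 1 by omega, show n - (c + 1) = n - 1 - c by omega]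
    rw [sum_range_sub' (fun c => Phi c (n - c))] at h
    simp only [Nat.sub_zero, Nat.sub_self, Nat.add_sub_cancel] at h ⊢
    rw [wz2]
    linarith

lemma Zex (c j : ℕ) (h : 1 ≤ c + j) : ∃ e : ℤ, V c j = e * 3 * (3 * c + 2 * j + 2 + j).choose j ∧
    V c j * (3 * c + j + 3) / (3 * c + 2 * j + 3) =
      e * 3 * (2 * (3 * c + 2 * j + 2 + j).choose j - (3 * c + 2 * j + 3 + j).choose j) := by
  obtain ⟨z, hz⟩ := dvdE c j h
  have hz' : (2 : ℚ) ^ (c + j) * O (2 * c + j + 1) = 2 * (O (c + 1) * (c + j)!) * z := by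
    exact_mod_cast hz
  have := Opos (c + 1)
  have e1 : V c j = (((-1) ^ c * z : ℤ) : ℚ) * 3 * (3 * c + 2 * j + 2 + j).choose j := by
    unfold V
    rw [Ch, mul_assoc ((-1 : ℚ) ^ c), hz',
      show 3 * c + 3 * j + 3 = 3 * c + 2 * j + 2 + j + 1 by ring, Fs, Fs (c + j)]
    push_cast
    field_simp
    ring
  refine ⟨(-1) ^ c * z, e1, ?_⟩
  rw [e1, Ch, Ch, show 3 * c + 2 * j + 3 + j = 3 * c + 2 * j + 2 + j + 1 by ring,
    Fs (3 * c + 2 * j + 2 + j), show 3 * c + 2 * j + 3 = 3 * c + 2 * j + 2 + 1 by ring,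
    Fs (3 * c + 2 * j + 2)]
  push_cast
  field_simp
  ring

lemma ab1 (c j : ℕ) : 2 * V c (j + 1) - (V (c + 1) j * (2 * c + 3) - V c (j + 1) * (2 * c + 1)) =
    (2 * (c + j + 2) + 1) * (V c (j + 1) * (3 * c + j + 4) / (3 * c + 2 * j + 5)) := by
  unfold V
  have := Opos (c + 1)
  have := Opos (2 * c + j + 2)
  rw [show 2 * (c + 1) + j + 1 = 2 * c + j + 2 + 1 by ring,
    show 2 * c + (j + 1) + 1 = 2 * c + j + 2 by ring, show c + (j + 1) = c + 1 + j by ring,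
    show 3 * (c + 1) + 3 * j + 3 = 3 * c + 3 * (j + 1) + 3 by ring,
    show 3 * (c + 1) + 2 * j + 2 = 3 * c + 2 * (j + 1) + 2 + 1 by ring]
  rw [Os (c + 1), Os (2 * c + j + 2), Fs j, Fs (3 * c + 2 * (j + 1) + 2)]
  push_cast
  field_simp
  ring

lemma abel (n : ℕ) : 2 * ∑ c ∈ range (n + 1), V c (n - c) = - V 0 n + (2 * (n + 1) + 1) *
    ∑ c ∈ range (n + 1), V c (n - c) * (3 * c + (n - c : ℕ) + 3) / (3 * c + 2 * (n - c : ℕ) + 3) := by
  rw [sum_range_succ, sum_range_succ, mul_add, mul_add, mul_sum, mul_sum]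
  have h := sum_range_sub (fun c => V c (n - c) * (2 * c + 1)) n
  have h2 : ∑ c ∈ range n, 2 * V c (n - c) - ∑ c ∈ range n, (V (c + 1) (n - (c + 1)) *
      (2 * ((c + 1 : ℕ) : ℚ) + 1) - V c (n - c) * (2 * c + 1)) =
      ∑ c ∈ range n, (2 * ((n : ℚ) + 1) + 1) *
        (V c (n - c) * (3 * c + (n - c : ℕ) + 3) / (3 * c + 2 * (n - c : ℕ) + 3)) := by
    rw [← sum_sub_distrib]
    refine sum_congr rfl fun c hc => ?_
    obtain ⟨j, rfl⟩ : ∃ j, n = c + 1 + j := ⟨n - 1 - c, by have := mem_range.1 hc; omega⟩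
    rw [show c + 1 + j - c = j + 1 by omega, show c + 1 + j - (c + 1) = j by omega]
    have := ab1 c j
    push_cast
    convert this using 2 <;> ring
  rw [h] at h2
  simp only [Nat.sub_self, Nat.sub_zero, Nat.cast_zero] at h2 ⊢
  have : V n 0 * (3 * n + 0 + 3) / (3 * n + 2 * 0 + 3) = V n 0 := by
    field_simp; ring
  rw [this]
  linarith

lemma V0 (n : ℕ) (h : 1 ≤ n) : ∃ z : ℤ, V 0 n = (2 * (n + 1) + 1) * z := by
  obtain ⟨e, he, -⟩ := Zex 0 n (by omega)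
  refine ⟨e * ((2 * n + 2 + (n + 1)).choose (n + 1) - 2 * (2 * n + 3 + n).choose n), ?_⟩
  rw [he]
  push_cast
  rw [Ch, Ch, Ch, show 2 * n + 2 + (n + 1) = 3 * 0 + 2 * n + 2 + n + 1 by ring,
    show 2 * n + 3 + n = 3 * 0 + 2 * n + 2 + n + 1 by ring, Fs (3 * 0 + 2 * n + 2 + n), Fs n,
    show 2 * n + 3 = 2 * n + 2 + 1 by ring, Fs (2 * n + 2),
    show 3 * 0 + 2 * n + 2 = 2 * n + 2 by ring]
  push_cast
  field_simp
  ring

theorem result (n : ℕ) (hn : 2 ≤ n) :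
    n * (2 * n + 1) * (2 * n).choose n ∣
      ∑ k ∈ range n, (11 * k + 3) * (2 * k).choose k ^ 2 * (3 * k).choose k * 64 ^ (n - 1 - k) := by
  obtain ⟨n, rfl⟩ : ∃ m, n = m + 1 := ⟨n - 1, by omega⟩
  have hz : ∀ c ∈ range (n + 1), ∃ z : ℤ × ℤ, V c (n - c) = z.1 ∧
      V c (n - c) * (3 * c + (n - c : ℕ) + 3) / (3 * c + 2 * (n - c : ℕ) + 3) = z.2 := by
    intro c hc
    obtain ⟨e, h1, h2⟩ := Zex c (n - c) (by have := mem_range.1 hc; omega)
    refine ⟨(e * 3 * (3 * c + 2 * (n - c) + 2 + (n - c)).choose (n - c),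
      e * 3 * (2 * (3 * c + 2 * (n - c) + 2 + (n - c)).choose (n - c) -
        (3 * c + 2 * (n - c) + 3 + (n - c)).choose (n - c))), ?_, ?_⟩
    · rw [h1]; push_cast; ring
    · rw [h2]; push_cast; ring
  choose! z hz using hz
  obtain ⟨w, hw⟩ := V0 n (by omega)
  have ha := abel n
  rw [hw, sum_congr rfl fun c hc => (hz c hc).1, sum_congr rfl fun c hc => (hz c hc).2] at ha
  have ha' : 2 * ∑ c ∈ range (n + 1), (z c).1 =
      (2 * (n + 1) + 1) * (-w + ∑ c ∈ range (n + 1), (z c).2) := by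
    have : ((2 * ∑ c ∈ range (n + 1), (z c).1 : ℤ) : ℚ) =
        (((2 * (n + 1) + 1) * (-w + ∑ c ∈ range (n + 1), (z c).2) : ℤ) : ℚ) := by
      push_cast; linarith
    exact_mod_cast this
  have hco : IsCoprime (2 * ((n : ℤ) + 1) + 1) 2 := ⟨1, -(n + 1), by ring⟩
  obtain ⟨y, hy⟩ := hco.dvd_of_dvd_mul_left ⟨_, ha'⟩
  have h := S_eq (n + 1)
  have e : ∑ c ∈ range (n + 1), T c (n + 1 - 1 - c) =
      (n + 1) * Cb (n + 1) * ∑ c ∈ range (n + 1), ((z c).1 : ℚ) := by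
    rw [mul_sum]
    refine sum_congr rfl fun c hc => ?_
    rw [← (hz c hc).1]
    obtain ⟨j, rfl⟩ : ∃ j, n = c + j := ⟨n - c, by have := mem_range.1 hc; omega⟩
    rw [show c + j + 1 - 1 - c = j by omega, show c + j - c = j by omega, T]
    push_cast; ring
  have hy' : ∑ c ∈ range (n + 1), ((z c).1 : ℚ) = (2 * (n + 1) + 1) * y := by exact_mod_cast hy
  rw [e, hy', ← Cb_eq] at h
  rw [← Int.natCast_dvd_natCast]
  refine ⟨y, ?_⟩
  have : ((∑ k ∈ range (n + 1), (11 * k + 3) * (2 * k).choose k ^ 2 * (3 * k).choose k *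
      64 ^ (n + 1 - 1 - k) : ℕ) : ℚ) = S (n + 1) := by
    unfold S; push_cast
    exact sum_congr rfl fun k _ => by ring
  rw [← this] at h
  have h' : (((∑ k ∈ range (n + 1), (11 * k + 3) * (2 * k).choose k ^ 2 * (3 * k).choose k *
      64 ^ (n + 1 - 1 - k) : ℕ) : ℤ) : ℚ) =
      (((((n + 1) * (2 * (n + 1) + 1) * (2 * (n + 1)).choose (n + 1) : ℕ) : ℤ) * y : ℤ) : ℚ) := by
    rw [Int.cast_natCast, h]; push_cast; ring
  exact_mod_cast h'

end Pool.Agent.Results.MP_550cbf_nt.Yes
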